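import Pool.Agent.H80.S6C.Cls
import Pool.Agent.H35.ZCL.Vis
import Pool.Agent.H42.PB.ClG

/-!
# The top: implicit labels in boxes, and the statements of its modules

`CIQ`: closed labels with an implicit equation in the boxes of the frames. The modules: `CROSS`
(implicit labels on all windows on which the directions are almost constant), `LBW` (no jump of the
directions), `DIC` (an implicit label is a plank if the directions turn), `ENDW` (the end), `BCT`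
and `TRV` (complete boxes).
-/

set_option autoImplicit false

namespace Pool.S6C

open Finset Real
open Pool.Agent.H49.Ent Pool.Agent.H32.Dense Pool.STK Pool.KA Pool.KSAT Pool.K2S Pool.PB Pool.KS6

/-- **Implicit label in the boxes of the frames** `g`: windows of length `2 ^ (-w)`, precision `lam`
of the frames, resolution `J'` of the boxes, precision `P` of the label in units of the box. Frames,
boxes and label are functions of the points at precision `Qt`, frames and label are functions of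
the line and of the window. -/
def CIQ {J : ℕ} (F : Fam 3 J) (Qt : ℕ) (i₀ : Fin 3) (w lam J' D P : ℕ) (A : F.Ω → Prop) : Prop :=
  ∃ (h : w + J' ≤ J) (g n : F.Ω → Fin 3 → ℝ),
    (∀ ω, A ω → ∀ j, |g ω j| ≤ 4 ∧ |F.d ω j - n ω j - g ω j * F.d ω i₀| ≤ 6 / 2 ^ lam) ∧
    (∃ φ : (Fin 3 → ℤ) × (ℕ × F.ζ) → (Fin 3 → ℝ) × (Fin 3 → ℝ), ∀ ω, A ω →
      (g ω, n ω) = φ (ptq F Qt ω)) ∧
    (∃ ψ : ((Fin 3 → ℝ) × (Fin 3 → ℝ)) × F.ζ × ℕ → Fin 3 → ℝ, ∀ ω, g ω = ψ (slam F w ω)) ∧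
    (∃ φ : (Fin 3 → ℤ) × (ℕ × F.ζ) →
        (Fin 3 → ℤ) × (ℕ × (Fam.zm F w J' h (Box.plkC lam i₀) g).ζ), ∀ ω, A ω →
      Fam.pt (Fam.zm F w J' h (Box.plkC lam i₀) g) ω = φ (ptq F Qt ω)) ∧
    ∃ i₁ : Fin 3, ClG (Fam.zm F w J' h (Box.plkC lam i₀) g) i₁ J' D 0 P A

/-- Implicit labels of the row `Q` and the window `w`, in the boxes of the frames of precision
`v - ζ` for all small `ζ`, of precision `p` in units of the box, on events of arbitrarily small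
cost. -/
def CI (S : PCl 3) (i₀ : Fin 3) (Q : ℝ) (w : ℚ) (v : ℝ) (D : ℕ) (p : ℝ) : Prop :=
  ∃ z₀ : ℝ, 0 < z₀ ∧ ∀ ζ δ : ℝ, 0 < ζ → ζ ≤ z₀ → 0 < δ →
    Clp S (fun J F A => ∃ B : F.Ω → Prop, Sub B A ∧
    Real.exp (-(δ * J)) * Pe F.p A ≤ Pe F.p B ∧
    CIQ F ⌊Q * J⌋₊ i₀ ⌊w * J⌋₊ ⌊(v - ζ) * J⌋₊ (⌊Q * J⌋₊ - ⌊w * J⌋₊ - ⌊(v - ζ) * J⌋₊) D ⌊p * J⌋₊ B)

/-! ### The modules of the top -/

/-- **(CROSS)** Implicit labels on all windows `w` on which the directions are almost constant,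
slightly larger than a window `v` on which they are constant, in a subclass; the degree `D'` does
not depend on the precision `e`, and `b` does not depend on the windows. Theorem PP in the zooms at
`v`, change of box, and the step at the top row in the zooms at `w`. -/
def CROSSStmt : Prop :=
  (∀ S : FCl 3, SPS S 1 → STP S) → (∀ S : FCl 3, SPS S 1 → SLP S) → JSTT 3 →
  ∀ (S : PCl 3) (a R h₁ : ℝ) (i₀ : Fin 3) (c s₂ : ℝ) (r : ℝ → ℝ) (D : Set ℝ) (σ : ℝ → Row),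
    Cs S a R h₁ i₀ c s₂ r D σ → ∃ S' : PCl 3, SubC S' S ∧ ∀ Q : ℝ, 1 / 2 ≤ Q → Q ≤ 1 → Q ∉ D →
    Plr r c Q → 0 < (σ Q).pi →
    ∃ D' : ℕ, ∀ e : ℝ, 0 < e → ∃ b : ℝ, 0 < b ∧ ∀ w v : ℚ, 0 < w → w ≤ v → v ≤ 1 →
      (v : ℝ) ≤ w + b → (σ Q).rot v = (σ Q).pi → (σ Q).pi - b ≤ (σ Q).rot w →
      (w : ℝ) + (σ Q).pi + 2 * e ≤ Q →
      CI S' i₀ Q w ((σ Q).rot w) D' (Q - w - (σ Q).rot w - e)

/-- **(LBW)** Lemma B with an implicit label: no jump of the directions at the window at which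
they become constant; `C` does not depend on `v`, `e`. -/
def LBWStmt : Prop :=
  ∀ (D' : ℕ) (S : PCl 3) (a R h₁ : ℝ) (i₀ : Fin 3) (c s₂ : ℝ) (r : ℝ → ℝ) (D : Set ℝ)
    (σ : ℝ → Row), Cs S a R h₁ i₀ c s₂ r D σ → ∀ Q : ℝ, 1 / 2 ≤ Q → Q ≤ 1 → Q ∉ D → Plr r c Q →
    ∃ C : ℝ, 0 < C ∧ ∀ (e : ℝ) (v : ℚ), 0 < e → 0 < v → v ≤ 1 → (σ Q).rot v = (σ Q).pi →
      (v : ℝ) + (σ Q).pi + 2 * e ≤ Q →
      CI S i₀ Q v ((σ Q).pi) D' (Q - v - (σ Q).pi - e) →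
      ∀ y : ℚ, 0 < y → y < v → (σ Q).pi - C * (y + e) ≤ (σ Q).rot (v - y)

/-- **(DIC)** The dichotomy: if the directions turn in the box, an implicit label gives a plank. -/
def DICStmt : Prop :=
  ∀ (D' : ℕ) (S : PCl 3) (a R h₁ : ℝ) (i₀ : Fin 3) (c s₂ : ℝ) (r : ℝ → ℝ) (D : Set ℝ)
    (σ : ℝ → Row), Cs S a R h₁ i₀ c s₂ r D σ → ∀ Q : ℝ, 1 / 2 ≤ Q → Q ≤ 1 → Q ∉ D →
    ∀ (w : ℚ) (p : ℝ), 0 < w → w < 1 → (σ Q).rot w < (σ Q).pi → 0 < p →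
      (w : ℝ) + (σ Q).rot w + p ≤ Q → CI S i₀ Q w ((σ Q).rot w) D' p →
      (w : ℝ) + (σ Q).rot w + p ≤ (σ Q).th w

/-- **(ENDW)** The end: the directions are not constant on all windows, at the rows near the top,
except for directions which are known completely. -/
def ENDWStmt : Prop :=
  (∀ S : FCl 3, SPS S 1 → STP S) → (∀ S : FCl 3, SPS S 1 → SLP S) →
  ∀ (S : PCl 3) (a R h₁ : ℝ) (i₀ : Fin 3) (c s₂ : ℝ) (r : ℝ → ℝ) (D : Set ℝ) (σ : ℝ → Row),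
    Cs S a R h₁ i₀ c s₂ r D σ → ∃ Q₀ : ℝ, Q₀ < 1 ∧ ∀ Q : ℝ, Q₀ ≤ Q → 1 / 2 ≤ Q → Q ≤ 1 → Q ∉ D →
      Plr r c Q → (σ Q).pi < Q → (∀ v : ℚ, 0 < v → v ≤ 1 → (σ Q).rot v = (σ Q).pi) → False

/-- **(BCT)** Lemma B with boxes: no jump of the directions if the boxes are complete. -/
def BCTStmt : Prop :=
  ∀ (S : PCl 3) (a R h₁ : ℝ) (i₀ : Fin 3) (c s₂ : ℝ) (r : ℝ → ℝ) (D : Set ℝ)
    (σ : ℝ → Row), Cs S a R h₁ i₀ c s₂ r D σ → ∀ Q : ℝ, 1 / 2 ≤ Q → Q ≤ 1 → Q ∉ D →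
    ∃ C : ℝ, 0 < C ∧ ∀ v y : ℚ, 0 < y → y < v → (v : ℝ) ≤ Q → Q ≤ (v : ℝ) + (σ Q).rot v →
      (σ Q).rot v - C * y ≤ (σ Q).rot (v - y)

/-- **(TRV)** The trivial planks of the frames. -/
def TRVStmt : Prop :=
  ∀ (S : PCl 3) (a R h₁ : ℝ) (i₀ : Fin 3) (c s₂ : ℝ) (r : ℝ → ℝ) (D : Set ℝ)
    (σ : ℝ → Row), Cs S a R h₁ i₀ c s₂ r D σ → ∀ Q : ℝ, 1 / 2 ≤ Q → Q ≤ 1 → Q ∉ D →
    ∀ w : ℚ, 0 < w → (w : ℝ) ≤ Q → min ((w : ℝ) + (σ Q).rot w) Q ≤ (σ Q).th w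

/-- **(TOP)**, from the lossy step, the slope law and the step at the top row. -/
def TOPRStmt : Prop :=
  (∀ S : FCl 3, SPS S 1 → STP S) → (∀ S : FCl 3, SPS S 1 → SLP S) → JSTT 3 → TOPStmt

end Pool.S6C
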