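import Pool.Agent.H42.S6C.Defs

/-!
# Relations between the numbers of a row
-/

set_option autoImplicit false

namespace Pool.PB

open Finset Real
open Pool.Agent.H49.Ent Pool.Agent.H32.Dense Pool.STK Pool.KA Pool.K2S

variable {m : ℕ}

/-- Comparison of the numbers of two properties. -/
theorem PNum.le_imp {S : PCl m} (hS : S.Ne) {q q' : ℝ → Stat m} {s s' : ℝ} (J₂ : ℕ)
    (h : ∀ (t : ℝ) (J : ℕ) (F : Fam m J) (A : F.Ω → Prop), J₂ ≤ J → q t J F A → q' t J F A)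
    (hs : PNum S q s) (hs' : PNum S q' s') : s ≤ s' := by
  by_contra hcon
  push Not at hcon
  have h1 := hs.1 ((s - s') / 2) (by linarith)
  have h2 := hs'.2 ((s - s') / 2) (by linarith)
  have e1 : s - (s - s') / 2 = s' + (s - s') / 2 := by ring
  rw [e1] at h1
  refine Clp.not_false hS (Clp.mono (J₂ := J₂) (h1.and h2) ?_)
  rintro J hJ F A ⟨h3, h4⟩
  exact h4 (h _ J F A hJ h3)

end Pool.PB

namespace Pool.S6C

open Finset Real
open Pool.Agent.H49.Ent Pool.Agent.H32.Dense Pool.STK Pool.KA Pool.KSAT Pool.K2S Pool.PB Pool.KS6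

theorem capS_imp {c s : ℝ} {q q' : ℝ → Stat 3} {J : ℕ} {F : Fam 3 J} {A : F.Ω → Prop}
    (h : q s J F A → q' s J F A) (hc : capS c q s J F A) : capS c q' s J F A := by
  rcases hc with h1 | ⟨h1, h2⟩
  · exact Or.inl h1
  · exact Or.inr ⟨h1, h h2⟩

variable {S : PCl 3} {i₀ : Fin 3} {Q : ℝ} {ρ : Row}

/-- The directions are constant to a precision at most that of the straightness. -/
theorem Rw.rot_le (hS : S.Ne) (h : Rw S i₀ Q ρ) {w : ℚ} (h0 : 0 ≤ w) (h1 : w ≤ 1) :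
    ρ.rot w ≤ ρ.pi :=
  PNum.le_imp hS 0 (fun _ _ _ _ _ hc => capS_imp (fun h => RotU.lineU h) hc) (h.rot w h0 h1) h.pi

/-- The constancy increases with the exponent of the window. -/
theorem Rw.rot_mono (hS : S.Ne) (h : Rw S i₀ Q ρ) {v w : ℚ} (h0 : 0 ≤ v) (hvw : v ≤ w)
    (h1 : w ≤ 1) : ρ.rot v ≤ ρ.rot w := by
  refine PNum.le_imp hS 0 (fun t J F A _ hc => capS_imp (fun h => ?_) hc) (h.rot v h0 (hvw.trans h1))
    (h.rot w (h0.trans hvw) h1)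
  have hJ0 : (0 : ℝ) ≤ J := Nat.cast_nonneg J
  have hvw' : (v : ℝ) ≤ w := by exact_mod_cast hvw
  have h1' : (w : ℝ) ≤ 1 := by exact_mod_cast h1
  have e1 : ⌊(v : ℝ) * J⌋₊ ≤ ⌊(w : ℝ) * J⌋₊ :=
    Nat.floor_le_floor (mul_le_mul_of_nonneg_right hvw' hJ0)
  have e2 : ⌊(w : ℝ) * J⌋₊ ≤ J := by
    refine Nat.floor_le_of_le ?_
    calc (w : ℝ) * J ≤ 1 * J := mul_le_mul_of_nonneg_right h1' hJ0
      _ = J := one_mul _
  exact RotU.window (φ := fun s => (s.1, s.2.1, s.2.2 / 2 ^ (⌊(w : ℝ) * J⌋₊ - ⌊(v : ℝ) * J⌋₊)))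
    (fun ω => slam_coarse F e1 e2 ω) h

/-- The constancy is not negative. -/
theorem Rw.rot_nn (hS : S.Ne) (h : Rw S i₀ Q ρ) {w : ℚ} (h0 : 0 ≤ w) (h1 : w ≤ 1) :
    0 ≤ ρ.rot w := by
  by_contra hcon
  push Not at hcon
  have h2 := (h.rot w h0 h1).2 (-ρ.rot w / 2) (by linarith)
  refine Clp.not_false hS (Clp.mono (J₂ := 0) h2 fun J _ F A h3 => ?_)
  exact h3 (Or.inl (by linarith))

/-- On the shortest windows the directions are constant. -/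
theorem Rw.rot_one (hS : S.Ne) (h : Rw S i₀ Q ρ) : ρ.rot 1 = ρ.pi := by
  refine le_antisymm (h.rot_le hS zero_le_one le_rfl) ?_
  refine PNum.le_imp hS 0 (fun t J F A _ hc => capS_imp (fun h => ?_) hc) h.pi
    (h.rot 1 zero_le_one le_rfl)
  obtain ⟨e, n, hen⟩ := h
  refine ⟨e, n, fun v => e (fl ⌊Q * J⌋₊ (fun i => v.1.1 i + ((v.2.2 : ℝ) / 2 ^ J) * v.1.2 i),
    (v.2.2, v.2.1)), hen, fun ω _ j => ?_⟩
  have e1 : ⌊((1 : ℚ) : ℝ) * J⌋₊ = J := by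
    rw [Rat.cast_one, one_mul, Nat.floor_natCast]
  have e2 : slam F ⌊((1 : ℚ) : ℝ) * J⌋₊ ω = ((F.u ω, F.d ω), (F.Z ω, F.T ω)) := by
    rw [e1]
    unfold slam Fam.T1 Fam.l
    rw [Nat.sub_self, pow_zero, Nat.div_one]
  have e3 : ptq F ⌊Q * J⌋₊ ω = (fl ⌊Q * J⌋₊ (fun i => F.u ω i + ((F.T ω : ℝ) / 2 ^ J) * F.d ω i),
    (F.T ω, F.Z ω)) := rfl
  rw [e2, e3]
  simp

end Pool.S6C
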