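import Pool.Agent.H42.S6C.Row

/-!
# The top: assembly

`w₀` is the infimum of the windows on which the directions are constant to the precision of the
straightness. If `w₀ = 0` the family is at its end, or the trivial planks are complete. Otherwise
there are planks on the windows just below `w₀`.
-/

set_option autoImplicit false

namespace Pool.S6C

open Finset Real
open Pool.Agent.H49.Ent Pool.Agent.H32.Dense Pool.STK Pool.KA Pool.KSAT Pool.K2S Pool.PB Pool.KS6

/-- The critical window of the directions. -/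
theorem exists_wpi {S : PCl 3} {i₀ : Fin 3} {Q : ℝ} {ρ : Row} (hS : S.Ne) (h : Rw S i₀ Q ρ)
    {v₀ : ℚ} (h0 : 0 < v₀) (h1 : v₀ ≤ 1) (hlt : ρ.rot v₀ < ρ.pi) :
    ∃ w₀ : ℝ, (v₀ : ℝ) ≤ w₀ ∧ w₀ ≤ 1 ∧ (∀ w : ℚ, 0 < w → (w : ℝ) < w₀ → ρ.rot w < ρ.pi) ∧
      ∀ t : ℝ, 0 < t → ∃ v : ℚ, 0 < v ∧ v ≤ 1 ∧ w₀ ≤ v ∧ (v : ℝ) < w₀ + t ∧ ρ.rot v = ρ.pi := by
  obtain ⟨X, hX⟩ : ∃ X : Set ℝ, X = {x : ℝ | ∃ v : ℚ, (v : ℝ) = x ∧ 0 < v ∧ v ≤ 1 ∧
      ρ.rot v = ρ.pi} := ⟨_, rfl⟩
  have hX1 : (1 : ℝ) ∈ X := by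
    rw [hX]
    exact ⟨1, by simp, one_pos, le_rfl, h.rot_one hS⟩
  have hlow : ∀ x ∈ X, (v₀ : ℝ) ≤ x := by
    intro x hx
    rw [hX] at hx
    obtain ⟨v, rfl, hv0, hv1, hv⟩ := hx
    by_contra hcon
    push Not at hcon
    have hcon' : v ≤ v₀ := by exact_mod_cast hcon.le
    have := h.rot_mono hS hv0.le hcon' h1
    rw [hv] at this
    linarith
  have hb : BddBelow X := ⟨v₀, hlow⟩
  refine ⟨sInf X, le_csInf ⟨1, hX1⟩ hlow, csInf_le hb hX1, ?_, ?_⟩
  · intro w hw0 hw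
    have hw1 : w ≤ 1 := by
      have : (w : ℝ) < 1 := hw.trans_le (csInf_le hb hX1)
      exact_mod_cast this.le
    refine lt_of_le_of_ne (h.rot_le hS hw0.le hw1) fun he => ?_
    have hmem : (w : ℝ) ∈ X := by
      rw [hX]
      exact ⟨w, rfl, hw0, hw1, he⟩
    exact absurd (csInf_le hb hmem) (not_le.2 hw)
  · intro t ht
    obtain ⟨x, hx, hxt⟩ := exists_lt_of_csInf_lt ⟨1, hX1⟩ (by linarith : sInf X < sInf X + t)
    have hle := csInf_le hb hx
    rw [hX] at hx
    obtain ⟨v, rfl, hv0, hv1, hv⟩ := hx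
    exact ⟨v, hv0, hv1, hle, hxt, hv⟩

/-- **(TOP)** from its modules. -/
theorem topR_of (hCR : CROSSStmt) (hLB : LBWStmt) (hDI : DICStmt) (hEN : ENDWStmt)
    (hBC : BCTStmt) (hTR : TRVStmt) : TOPRStmt := by
  intro hSTP hSLP hJST S₀ a R h₁ i₀ c s₂ r D σ hC₀
  obtain ⟨S, hsub, hCR'⟩ := hCR hSTP hSLP hJST S₀ a R h₁ i₀ c s₂ r D σ hC₀
  have hC := hC₀.le hsub
  obtain ⟨Q₀, hQ₀, hend⟩ := hEN hSTP hSLP S a R h₁ i₀ c s₂ r D σ hC
  refine ⟨Q₀, hQ₀, fun Q hQQ hQh hQ1 hQD hP e x he hx => ?_⟩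
  have hS := hC.ne
  have hQ0 : 0 < Q := by linarith
  have hR := hC.row Q hQ0 hQ1 hQD
  have htrv := hTR S a R h₁ i₀ c s₂ r D σ hC Q hQh hQ1 hQD
  by_cases hall : ∀ v : ℚ, 0 < v → v ≤ 1 → (σ Q).rot v = (σ Q).pi
  · -- the directions are constant on all windows
    by_cases hpi : (σ Q).pi < Q
    · exact (hend Q hQQ hQh hQ1 hQD hP hpi hall).elim
    push Not at hpi
    obtain ⟨w, hw0, hw⟩ := exists_rat_btwn (show (0 : ℝ) < min x 1 / 2 by positivity)
    have hw0' : 0 < w := by exact_mod_cast hw0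
    have hwx : (w : ℝ) < x / 2 := hw.trans_le (by linarith [min_le_left x 1])
    have hw1 : (w : ℝ) < 1 / 2 := hw.trans_le (by linarith [min_le_right x 1])
    have hw1' : w < 1 / 2 := by
      have : (w : ℝ) < ((1 / 2 : ℚ) : ℝ) := by push_cast; exact hw1
      exact_mod_cast this
    refine ⟨w, 2 * w, hw0', by linarith, by linarith, ?_, Or.inr ?_⟩
    · have h1 := htrv w hw0' (by linarith)
      rw [hall w hw0' (by linarith), min_eq_right (by linarith)] at h1
      linarith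
    · push_cast
      linarith
  push Not at hall
  obtain ⟨v₀, hv0, hv1, hne⟩ := hall
  have hlt : (σ Q).rot v₀ < (σ Q).pi := lt_of_le_of_ne (hR.rot_le hS hv0.le hv1) hne
  obtain ⟨w₀, hw₀v, hw₀1, hbelow, habove⟩ := exists_wpi hS hR hv0 hv1 hlt
  have hv0r : (0 : ℝ) < v₀ := by exact_mod_cast hv0
  have hw₀0 : 0 < w₀ := by linarith
  -- it is enough to find planks just below `w₀`
  have key : ∀ w : ℚ, 0 < w → (w : ℝ) < w₀ → Q - e ≤ (σ Q).th w → ∃ w w' : ℚ, 0 < w ∧ w < w' ∧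
      w' < 1 ∧ Q - e ≤ (σ Q).th w ∧ ((σ Q).rot w' < (σ Q).pi ∨ (w' : ℝ) ≤ x) := by
    intro w hw hww hth
    obtain ⟨w', h1, h2⟩ := exists_rat_btwn hww
    have h1' : w < w' := by exact_mod_cast h1
    refine ⟨w, w', hw, h1', ?_, hth, Or.inl (hbelow w' (hw.trans h1') h2)⟩
    have : (w' : ℝ) < 1 := by linarith
    exact_mod_cast this
  by_cases hbig : Q ≤ w₀
  · -- the windows are shorter than the precision of the points
    obtain ⟨w, h1, h2⟩ := exists_rat_btwn (show max (Q - e) (Q / 2) < Q from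
      max_lt (by linarith) (by linarith))
    have hw0 : 0 < w := by
      have : (0 : ℝ) < w := lt_of_lt_of_le (by linarith) ((le_max_right (Q - e) (Q / 2)).trans h1.le)
      exact_mod_cast this
    have hw1 : w ≤ 1 := by
      have : (w : ℝ) ≤ 1 := by linarith
      exact_mod_cast this
    have h3 := htrv w hw0 h2.le
    have h4 : 0 ≤ (σ Q).rot w := hR.rot_nn hS hw0.le hw1
    refine key w hw0 (h2.trans_le hbig) (le_trans ?_ h3)
    have h5 : Q - e < w := (le_max_left _ _).trans_lt h1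
    exact le_min (by linarith) (by linarith)
  push Not at hbig
  by_cases hfull : Q ≤ w₀ + (σ Q).pi
  · -- complete boxes
    obtain ⟨C, hC0, hbc⟩ := hBC S a R h₁ i₀ c s₂ r D σ hC Q hQh hQ1 hQD
    obtain ⟨t, ht⟩ : ∃ t, t = min (min (e / (2 * (1 + 2 * C))) (w₀ / 2)) (Q - w₀) := ⟨_, rfl⟩
    have ht0 : 0 < t := by
      rw [ht]
      exact lt_min (lt_min (by positivity) (by linarith)) (by linarith)
    have ht1 : (1 + 2 * C) * t ≤ e / 2 := by
      have h1 : t ≤ e / (2 * (1 + 2 * C)) := by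
        rw [ht]; exact (min_le_left _ _).trans (min_le_left _ _)
      rw [le_div_iff₀ (by positivity)] at h1
      linarith
    have ht2 : t ≤ w₀ / 2 := by rw [ht]; exact (min_le_left _ _).trans (min_le_right _ _)
    have ht3 : t ≤ Q - w₀ := by rw [ht]; exact min_le_right _ _
    obtain ⟨v, hv0', hv1', hv2, hv3, hv4⟩ := habove t ht0
    obtain ⟨w, hw1, hw2⟩ := exists_rat_btwn (show w₀ - t < w₀ by linarith)
    have hw0 : 0 < w := by
      have : (0 : ℝ) < w := by linarith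
      exact_mod_cast this
    have hwv : w < v := by
      have : (w : ℝ) < v := hw2.trans_le hv2
      exact_mod_cast this
    have h1 := hbc v (v - w) (by linarith) (by linarith) (by linarith) (by rw [hv4]; linarith)
    have e1 : v - (v - w) = w := by ring
    rw [e1, hv4] at h1
    push_cast at h1
    have h2 := htrv w hw0 (by linarith)
    refine key w hw0 hw2 (le_trans ?_ h2)
    have h3 : C * ((v : ℝ) - w) ≤ C * (2 * t) := mul_le_mul_of_nonneg_left (by linarith) hC0.le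
    refine le_min ?_ (by linarith)
    linarith
  -- incomplete boxes
  push Not at hfull
  obtain ⟨κ, hκ⟩ : ∃ κ, κ = Q - w₀ - (σ Q).pi := ⟨_, rfl⟩
  have hκ0 : 0 < κ := by rw [hκ]; linarith
  obtain ⟨D', hcr⟩ := hCR' Q hQh hQ1 hQD hP (lt_of_le_of_lt (hR.rot_nn hS hv0.le hv1) hlt)
  obtain ⟨C, hC0, hlb⟩ := hLB D' S a R h₁ i₀ c s₂ r D σ hC Q hQh hQ1 hQD hP
  -- no jump
  have hcont : ∀ w : ℚ, 0 < w → (w : ℝ) < w₀ → (σ Q).pi - C * (w₀ - w) ≤ (σ Q).rot w := by
    intro w hw hww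
    by_contra hcon
    push Not at hcon
    obtain ⟨t, ht⟩ : ∃ t, t = min (((σ Q).pi - C * (w₀ - w) - (σ Q).rot w) / (4 * C)) (κ / 4) :=
      ⟨_, rfl⟩
    have ht0 : 0 < t := by
      rw [ht]
      refine lt_min (div_pos (by linarith) (by positivity)) (by linarith)
    have ht1 : 4 * C * t ≤ (σ Q).pi - C * (w₀ - w) - (σ Q).rot w := by
      have h1 : t ≤ ((σ Q).pi - C * (w₀ - w) - (σ Q).rot w) / (4 * C) := by
        rw [ht]; exact min_le_left _ _
      rw [le_div_iff₀ (by positivity)] at h1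
      linarith
    have ht2 : t ≤ κ / 4 := by rw [ht]; exact min_le_right _ _
    obtain ⟨b, hb0, hb⟩ := hcr t ht0
    obtain ⟨v, hv0', hv1', hv2, hv3, hv4⟩ := habove t ht0
    have hwv : w < v := by
      have : (w : ℝ) < v := hww.trans_le hv2
      exact_mod_cast this
    have h1 : (v : ℝ) + (σ Q).pi + 2 * t ≤ Q := by linarith
    have h2 := hb v v hv0' le_rfl hv1' (by linarith) hv4 (by rw [hv4]; linarith) h1
    rw [hv4] at h2
    have h3 := hlb t v ht0 hv0' hv1' hv4 h1 h2 (v - w) (by linarith) (by linarith)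
    have e1 : v - (v - w) = w := by ring
    rw [e1] at h3
    push_cast at h3
    have h4 : C * ((v : ℝ) - w + t) ≤ C * (w₀ - w + 2 * t) :=
      mul_le_mul_of_nonneg_left (by linarith) hC0.le
    have h5 : C * (w₀ - w + 2 * t) = C * (w₀ - w) + 2 * (C * t) := by ring
    have h6 : 0 < C * t := by positivity
    linarith
  -- the planks
  obtain ⟨e', he'⟩ : ∃ e', e' = min e (κ / 4) := ⟨_, rfl⟩
  have he'0 : 0 < e' := by rw [he']; exact lt_min he (by linarith)
  have he'1 : e' ≤ e := by rw [he']; exact min_le_left _ _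
  have he'2 : e' ≤ κ / 4 := by rw [he']; exact min_le_right _ _
  obtain ⟨b, hb0, hb⟩ := hcr e' he'0
  obtain ⟨t, ht⟩ : ∃ t, t = min (min (b / C) (b / 2)) (w₀ / 2) := ⟨_, rfl⟩
  have ht0 : 0 < t := by rw [ht]; positivity
  have ht1 : C * t ≤ b := by
    have h1 : t ≤ b / C := by rw [ht]; exact (min_le_left _ _).trans (min_le_left _ _)
    rw [le_div_iff₀ hC0] at h1
    linarith
  have ht3 : t ≤ b / 2 := by rw [ht]; exact (min_le_left _ _).trans (min_le_right _ _)
  have ht2 : t ≤ w₀ / 2 := by rw [ht]; exact min_le_right _ _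
  obtain ⟨w, hw1, hw2⟩ := exists_rat_btwn (show w₀ - t < w₀ by linarith)
  have hw0 : 0 < w := by
    have : (0 : ℝ) < w := by linarith
    exact_mod_cast this
  have hw1' : w < 1 := by
    have : (w : ℝ) < 1 := by linarith
    exact_mod_cast this
  obtain ⟨v, hv0', hv1', hv2, hv3, hv4⟩ := habove t ht0
  have hwv : w ≤ v := by
    have : (w : ℝ) < v := hw2.trans_le hv2
    exact_mod_cast this.le
  have h1 := hcont w hw0 hw2
  have h2 : C * (w₀ - w) ≤ C * t := mul_le_mul_of_nonneg_left (by linarith) hC0.le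
  have h3 := hb w v hw0 hwv hv1' (by linarith) hv4 (by linarith) (by linarith)
  have h4 := hbelow w hw0 hw2
  have h5 := hDI D' S a R h₁ i₀ c s₂ r D σ hC Q hQh hQ1 hQD w (Q - w - (σ Q).rot w - e') hw0
    hw1' h4 (by linarith) (by linarith) h3
  refine key w hw0 hw2 ?_
  linarith

end Pool.S6C
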