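import Pool.Agent.H84.S6.Cross
import Pool.Agent.H35.ZCL.Xlc

/-!
# Labels with a chart in the A-zooms: the assembly

The leaves with a chart `i₁ ≠ i₀` in the A-zooms of a window on which the directions are constant
(`az_leafc`) and the change of box (`ChbStmt`) give `XLStmt`.
-/

set_option autoImplicit false

namespace Pool.ZCL

open Finset Real
open Pool.Agent.H49.Ent Pool.Agent.H32.Dense Pool.STK Pool.KA Pool.KSAT Pool.K2S Pool.PB Pool.KS6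
open Pool.S6C

/-- **Change of box**: from the zoom at `(v, s')` to the zoom at `(w, s)`, where the windows and
the precisions are close to each other; the frames of the larger window have the precision
`s₁ > s`. -/
def ChbStmt : Prop :=
  ∀ {S : PCl 3} {a R h₁ : ℝ} {i₀ : Fin 3} {Q pi : ℝ}, AzH S a R h₁ i₀ Q pi →
  ∀ {c : ℝ}, 0 < c → BTail S c Q → ∀ e h₂ x : ℝ, 0 < e → 0 < h₂ → h₂ ≤ 1 → 0 < x → x ≤ 1 / 4 →
  ∀ K : ℕ, ∃ (K' : ℕ) (b : ℝ), 0 < b ∧ ∀ κ y : ℝ, 0 < κ → 0 < y → ∃ ψ : ℝ, 0 < ψ ∧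
    ∀ w v s s₁ s' : ℝ, 0 < w → w ≤ v → v ≤ w + b → 0 < s → pi - b ≤ s → s + y ≤ s₁ → s₁ < s' →
    s' < pi → v + s' + e ≤ Q →
    ∃ J₁ : ℕ, ∀ J ≥ J₁, ∀ (F : Fam 3 J) (B : F.Ω → Prop), S.St ψ J F B →
    ∀ z z' : F.Ω → Fin 3 → ℝ, AzF F i₀ ⌊Q * J⌋₊ ⌊s₁ * J⌋₊ ⌊w * J⌋₊ B z →
    AzF F i₀ ⌊Q * J⌋₊ ⌊s' * J⌋₊ ⌊v * J⌋₊ B z' →
    ∀ (h : ⌊w * J⌋₊ + azJ Q w s J ≤ J) (h' : ⌊v * J⌋₊ + azJ Q v s' J ≤ J) (i₁ : Fin 3)
      (a P : ℕ), i₁ ≠ i₀ → (a : ℝ) ≤ x * azJ Q v s' J → (1 - x) * azJ Q v s' J ≤ P →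
      P ≤ azJ Q v s' J →
      Ch (F.zm ⌊v * J⌋₊ (azJ Q v s' J) h' (Box.plkC ⌊s' * J⌋₊ i₀) z') i₁
        ⌊h₂ * azJ Q v s' J⌋₊ B →
      Lab (F.zm ⌊v * J⌋₊ (azJ Q v s' J) h' (Box.plkC ⌊s' * J⌋₊ i₀) z') i₁ (azJ Q v s' J) K a a
        P B →
      ∃ B' : F.Ω → Prop, Sub B' B ∧ Real.exp (-(κ * J)) * Pe F.p B ≤ Pe F.p B' ∧
        Ch (F.zm ⌊w * J⌋₊ (azJ Q w s J) h (Box.plkC ⌊s * J⌋₊ i₀) z) i₁
          ⌊h₂ / 2 * azJ Q w s J⌋₊ B' ∧
        ∃ a' P' : ℕ, (a' : ℝ) ≤ 2 * x * azJ Q w s J ∧ (1 - 2 * x) * azJ Q w s J ≤ P' ∧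
          Lab (F.zm ⌊w * J⌋₊ (azJ Q w s J) h (Box.plkC ⌊s * J⌋₊ i₀) z) i₁ (azJ Q w s J) K'
            a' a' P' B'

/-- **Labels with a chart in the A-zooms**, from the change of box. -/
theorem xl_of (hCB : ChbStmt) : XLStmt := by
  classical
  intro hSTP hSLP S a R h₁ i₀ c s₂ r D σ hC S' hS' hBR Q hQh hQ1 hQD hP hT hpi
  have hQ0 : 0 < Q := by linarith
  have hR := (hC.row Q hQ0 hQ1 hQD).le hS'.le
  have H : AzH S' a R h₁ i₀ Q (σ Q).pi := (AzH.of_cs hC hQ0 hQ1 hQD).sub hS'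
  have hNe := hS'.ne
  have hc := hC.c0
  obtain ⟨h₂, hh₂, hh₂1, hlf⟩ := az_leafc hSTP hSLP hc
  refine ⟨h₂ / 2, by positivity, fun e x₀ he hx₀ => ?_⟩
  obtain ⟨x, hx⟩ : ∃ x, x = min (x₀ / 2) (1 / 4) := ⟨_, rfl⟩
  have hx0 : 0 < x := by rw [hx]; exact lt_min (by positivity) (by norm_num)
  have hxx : x ≤ x₀ / 2 := by rw [hx]; exact min_le_left _ _
  have hx4 : x ≤ 1 / 4 := by rw [hx]; exact min_le_right _ _
  have hx1 : x ≤ 1 := by linarith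
  obtain ⟨K₁, hlf1⟩ := hlf H hT hpi he hx0
  obtain ⟨K', b₁, hb₁, hcb⟩ := hCB H hc hT e h₂ x he hh₂ hh₂1 hx0 hx4 K₁
  obtain ⟨b, hb⟩ : ∃ b, b = min (min (b₁ / 2) ((σ Q).pi / 4)) e := ⟨_, rfl⟩
  have hb0 : 0 < b := by rw [hb]; exact lt_min (lt_min (by positivity) (by positivity)) he
  have hbb : b ≤ b₁ / 2 := by rw [hb]; exact (min_le_left _ _).trans (min_le_left _ _)
  have hbpi : b ≤ (σ Q).pi / 4 := by rw [hb]; exact (min_le_left _ _).trans (min_le_right _ _)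
  have hbe : b ≤ e := by rw [hb]; exact min_le_right _ _
  refine ⟨K', b, hb0, fun w v hw0 hwv hv1 hvw hrv hrw hwQ ζ δ hζ hζb hδ => ?_⟩
  have hw1 : w ≤ 1 := hwv.trans hv1
  have hv0 : 0 < v := hw0.trans_le hwv
  have hwr : (0 : ℝ) < w := by exact_mod_cast hw0
  have hvr : (0 : ℝ) < v := by exact_mod_cast hv0
  have hwvr : (w : ℝ) ≤ v := by exact_mod_cast hwv
  have hrotpi : (σ Q).rot w ≤ (σ Q).pi := hR.rot_le hNe hw0.le hw1
  obtain ⟨s, hs⟩ : ∃ s, s = (σ Q).rot w - ζ := ⟨_, rfl⟩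
  obtain ⟨s₁, hs₁⟩ : ∃ s₁, s₁ = (σ Q).rot w - ζ / 2 := ⟨_, rfl⟩
  have hs0 : 0 < s := by rw [hs]; linarith
  have hss₁ : s < s₁ := by rw [hs, hs₁]; linarith
  rw [← hs]
  -- the freedoms
  obtain ⟨ψc, hψc, hcb1⟩ := hcb (δ / 4) (ζ / 2) (by positivity) (by positivity)
  obtain ⟨δ', hδ'⟩ : ∃ δ', δ' = min (δ / 8) (ψc / 8) := ⟨_, rfl⟩
  have hδ'0 : 0 < δ' := by rw [hδ']; positivity
  have hδ'1 : δ' ≤ δ / 8 := by rw [hδ']; exact min_le_left _ _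
  have hδ'2 : δ' ≤ ψc / 8 := by rw [hδ']; exact min_le_right _ _
  obtain ⟨bl, hbl, hlf2⟩ := hlf1 δ' hδ'0
  obtain ⟨zs, hzs⟩ : ∃ zs, zs = min bl (ζ / 4) := ⟨_, rfl⟩
  have hzs0 : 0 < zs := by rw [hzs]; positivity
  have hzs1 : zs ≤ bl := by rw [hzs]; exact min_le_left _ _
  have hzs2 : zs ≤ ζ / 4 := by rw [hzs]; exact min_le_right _ _
  obtain ⟨s', hs'⟩ : ∃ s', s' = (σ Q).pi - zs := ⟨_, rfl⟩
  have hs1s' : s₁ < s' := by rw [hs₁, hs']; linarith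
  have hs'pi : s' < (σ Q).pi := by rw [hs']; linarith
  have hs'0 : 0 < s' := by linarith
  have hrotv : ∀ t : ℝ, t < (σ Q).pi → Clp S' (capS 1 (qRot i₀ Q v) t) := by
    intro t ht
    have h1 := (hR.rot v hv0.le hv1).1 ((σ Q).pi - t) (by linarith)
    rw [hrv] at h1
    have e1 : (σ Q).pi - ((σ Q).pi - t) = t := by ring
    rwa [e1] at h1
  obtain ⟨ψ₀, hψ₀, hleaf⟩ := hlf2 v s' hvr.le (by linarith) hrotv (by rw [hs']; linarith) hs'pi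
  have hrotw : Clp S' (capS 1 (qRot i₀ Q w) s₁) := by
    have h1 := (hR.rot w hw0.le hw1).1 (ζ / 2) (by positivity)
    rwa [← hs₁] at h1
  obtain ⟨κf, hκf⟩ : ∃ κf, κf = min δ' ψ₀ := ⟨_, rfl⟩
  have hκf0 : 0 < κf := by rw [hκf]; positivity
  have hκf1 : κf ≤ δ' := by rw [hκf]; exact min_le_left _ _
  have hκf2 : κf ≤ ψ₀ := by rw [hκf]; exact min_le_right _ _
  obtain ⟨ψf, hψf, hfr⟩ := az_frames H hrotw hκf0
  obtain ⟨J₁, hcb2⟩ := hcb1 w v s s₁ s' hwr hwvr (by linarith) hs0 (by rw [hs]; linarith)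
    (by rw [hs, hs₁]; linarith) hs1s' hs'pi (by linarith)
  obtain ⟨J₂, hJ₂⟩ := exists_nat_gt (2 / e)
  -- the claim
  have hclp : Clp S' (fun J F A => ∃ (B : F.Ω → Prop) (z : F.Ω → Fin 3 → ℝ), Sub B A ∧
      Real.exp (-(5 * δ / 8 * J)) * Pe F.p A ≤ Pe F.p B ∧
      AzF F i₀ ⌊Q * J⌋₊ ⌊s * J⌋₊ ⌊(w : ℝ) * J⌋₊ B z ∧
      ∃ (hB : IsLaw (cond F.p B True)) (h : ⌊(w : ℝ) * J⌋₊ + azJ Q w s J ≤ J) (i₁ : Fin 3)
        (K a P : ℕ), K ≤ K' ∧ (a : ℝ) ≤ x₀ * azJ Q w s J ∧ (1 - x₀) * azJ Q w s J ≤ P ∧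
        Ch (azG F i₀ Q w s B z hB h) i₁ ⌊h₂ / 2 * azJ Q w s J⌋₊ B ∧
        Lab (azG F i₀ Q w s B z hB h) i₁ (azJ Q w s J) K a a P B) := by
    refine Clp.mono (J₂ := max J₁ J₂) ((hfr.and hleaf).and (Clp.of (S := S')
      (Φ := fun J F A => S'.St (ψc / 4) J F A) (by positivity : 0 < ψc / 4) 0
      fun J _ F A hA => hA)) ?_
    rintro J hJ F A ⟨⟨k1, k2⟩, hSt⟩
    have hJ1 : J₁ ≤ J := (le_max_left _ _).trans hJ
    have hJ2 : 2 / e < J :=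
      hJ₂.trans_le (by exact_mod_cast (le_max_right _ _).trans hJ)
    have q1 : 0 < 2 / e := by positivity
    have hJ0 : (0 : ℝ) < J := by linarith
    have hp := F.isLaw
    have hPe := Pe_nonneg hp A
    obtain ⟨A₂, z, hA₂, hPA₂, hz⟩ := k1 A (fun _ h => h) (by
      have : Real.exp (-(ψf * J)) ≤ 1 := by
        rw [Real.exp_le_one_iff]
        have : 0 ≤ ψf * (J : ℝ) := by positivity
        linarith
      calc _ ≤ 1 * Pe F.p A := mul_le_mul_of_nonneg_right this hPe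
        _ = _ := one_mul _)
    obtain ⟨B, z', hB, hPB, hz', hlaw, h', i₁, K, a', P, hi₁, hK, r1, r2, hCh, hLab⟩ :=
      k2 A₂ hA₂ (le_trans (mul_le_mul_of_nonneg_right (Real.exp_le_exp.2 (by
        have := mul_le_mul_of_nonneg_right hκf2 hJ0.le
        linarith)) hPe) hPA₂)
    have hBA : Sub B A := fun ω hω => hA₂ ω (hB ω hω)
    -- the events are large
    have hStA₂ : S'.St (ψc / 4 + κf) J F A₂ := S'.res hκf0.le hSt hA₂ hPA₂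
    have hStB : S'.St ψc J F B := by
      have h1 := S'.res hδ'0.le hStA₂ hB hPB
      exact S'.mono (by linarith) h1
    obtain ⟨hadd', hJv⟩ := azJ_add (w := (v : ℝ)) (s := s') he hvr.le (by
      rw [max_eq_left hs'0.le]
      linarith : (v : ℝ) + max s' 0 + e ≤ Q) (J := J) (by linarith)
    obtain ⟨hadd, hJw⟩ := azJ_add (w := (w : ℝ)) (s := s) he hwr.le (by
      rw [max_eq_left hs0.le]
      linarith : (w : ℝ) + max s 0 + e ≤ Q) (J := J) (by linarith)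
    have hh : ⌊(w : ℝ) * (J : ℝ)⌋₊ + azJ Q w s J ≤ J := by
      have := floor_le_J hQ1 J
      omega
    have hAzv : 0 ≤ (azJ Q v s' J : ℝ) := Nat.cast_nonneg _
    have haJ : a' ≤ azJ Q v s' J := by
      have h1 : (a' : ℝ) ≤ azJ Q v s' J := r1.trans (mul_le_of_le_one_left hAzv hx1)
      exact_mod_cast h1
    have hLab₁ : Lab (azG F i₀ Q v s' B z' hlaw h') i₁ (azJ Q v s' J) K₁ a' a'
        (min P (azJ Q v s' J)) B :=
      Lab.mono (F := azG F i₀ Q v s' B z' hlaw h') le_rfl hK le_rfl le_rfl haJ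
        (min_le_left _ _) hLab
    have hPmin : (1 - x) * (azJ Q v s' J : ℝ) ≤ (min P (azJ Q v s' J) : ℕ) := by
      rw [Nat.cast_min]
      refine le_min r2 ?_
      have : (1 - x) * (azJ Q v s' J : ℝ) ≤ 1 * azJ Q v s' J :=
        mul_le_mul_of_nonneg_right (by linarith) hAzv
      linarith
    obtain ⟨B', hB', hPB', hCh', a'', P', ha', hP', hLab'⟩ := hcb2 J hJ1 F B hStB z z'
      (hz.sub hB) hz' hh h' i₁ a' (min P (azJ Q v s' J)) hi₁ r1 hPmin (min_le_right _ _) hCh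
      hLab₁
    have hB'A : Sub B' A := fun ω hω => hBA ω (hB' ω hω)
    have hStB' : S'.St (ψc + δ / 4) J F B' := S'.res (by positivity) hStB hB' hPB'
    have hPB'0 : 0 < Pe F.p B' := lt_of_lt_of_le (Real.exp_pos _) (H.st _ _ _ _ hStB').2.2.2
    have hAzw : 0 ≤ (azJ Q w s J : ℝ) := Nat.cast_nonneg _
    refine ⟨B', z, hB'A, ?_, (hz.sub fun ω hω => hB ω (hB' ω hω)).coarse
      (Nat.floor_le_floor (mul_le_mul_of_nonneg_right hss₁.le hJ0.le)), isLaw_cond hp hPB'0, hh,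
      i₁, K', a'', P', le_rfl, ?_, ?_, hCh', hLab'⟩
    · -- cost
      have e1 : Real.exp (-(5 * δ / 8 * J)) ≤ Real.exp (-(δ / 4 * J)) *
          (Real.exp (-(δ' * J)) * Real.exp (-(κf * J))) := by
        rw [← Real.exp_add, ← Real.exp_add]
        refine Real.exp_le_exp.2 ?_
        have h1 : (δ / 4 + δ' + κf) * (J : ℝ) ≤ 5 * δ / 8 * J :=
          mul_le_mul_of_nonneg_right (by linarith) hJ0.le
        linarith
      calc Real.exp (-(5 * δ / 8 * J)) * Pe F.p A ≤ Real.exp (-(δ / 4 * J)) *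
          (Real.exp (-(δ' * J)) * Real.exp (-(κf * J))) * Pe F.p A :=
            mul_le_mul_of_nonneg_right e1 hPe
        _ = Real.exp (-(δ / 4 * J)) * (Real.exp (-(δ' * J)) *
            (Real.exp (-(κf * J)) * Pe F.p A)) := by ring
        _ ≤ Real.exp (-(δ / 4 * J)) * (Real.exp (-(δ' * J)) * Pe F.p A₂) := by gcongr
        _ ≤ Real.exp (-(δ / 4 * J)) * Pe F.p B := by gcongr
        _ ≤ _ := hPB'
    · refine ha'.trans (mul_le_mul_of_nonneg_right (by linarith) hAzw)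
    · refine le_trans (mul_le_mul_of_nonneg_right (by linarith) hAzw) hP'
  obtain ⟨τ, hτ, J₃, hwin⟩ := hclp.win (δ / 4) (by positivity)
  refine ⟨τ, hτ, J₃, fun J hJ F A₀ hA₀ => ?_⟩
  obtain ⟨A, hA, hPA, B, z, k1, k2, k3, k4⟩ := hwin J hJ F A₀ hA₀
  refine ⟨B, z, fun ω hω => hA ω (k1 ω hω), ?_, k3, k4⟩
  have hJ0 : (0 : ℝ) ≤ J := Nat.cast_nonneg J
  calc Real.exp (-(δ * J)) * Pe F.p A₀ ≤ Real.exp (-(5 * δ / 8 * J)) *
      Real.exp (-(δ / 4 * J)) * Pe F.p A₀ := by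
        refine mul_le_mul_of_nonneg_right ?_ (Pe_nonneg F.isLaw A₀)
        rw [← Real.exp_add]
        refine Real.exp_le_exp.2 ?_
        have h1 : (5 * δ / 8 + δ / 4) * (J : ℝ) ≤ δ * J :=
          mul_le_mul_of_nonneg_right (by linarith) hJ0
        linarith
    _ = Real.exp (-(5 * δ / 8 * J)) * (Real.exp (-(δ / 4 * J)) * Pe F.p A₀) := by ring
    _ ≤ Real.exp (-(5 * δ / 8 * J)) * Pe F.p A := by gcongr
    _ ≤ _ := k2

end Pool.ZCL
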